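import Mathlib

set_option autoImplicit false

/-! Generic planar projections of the cube have distinct perpendicular bisectors. -/

namespace Pool.Agent.H775Z.Bis

open Finset MvPolynomial

variable {d : ℕ}

/-- coordinate `r` of the image of `u` under the matrix `M` -/
def co (M : Fin 2 × Fin d → ℝ) (r : Fin 2) (u : Fin d → ℝ) : ℝ := ∑ i, u i * M (r, i)

/-- the same as a polynomial in the entries of the matrix -/
noncomputable def lin (r : Fin 2) (u : Fin d → ℝ) : MvPolynomial (Fin 2 × Fin d) ℝ :=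
  ∑ i, C (u i) * X (r, i)

lemma eval_lin (M : Fin 2 × Fin d → ℝ) (r : Fin 2) (u : Fin d → ℝ) :
    eval M (lin r u) = co M r u := by
  simp [lin, co]

lemma co_sub (M : Fin 2 × Fin d → ℝ) (r : Fin 2) (u v : Fin d → ℝ) :
    co M r (u - v) = co M r u - co M r v := by
  simp [co, sub_mul, Finset.sum_sub_distrib]

lemma co_add (M : Fin 2 × Fin d → ℝ) (r : Fin 2) (u v : Fin d → ℝ) :
    co M r (u + v) = co M r u + co M r v := by
  simp [co, add_mul, Finset.sum_add_distrib]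

/-- matrix with unit rows -/
def unit2 (i j : Fin d) : Fin 2 × Fin d → ℝ := fun p =>
  if p.1 = 0 then (if p.2 = i then 1 else 0) else (if p.2 = j then 1 else 0)

lemma co_unit0 (i j : Fin d) (u : Fin d → ℝ) : co (unit2 i j) 0 u = u i := by
  simp [co, unit2]

lemma co_unit1 (i j : Fin d) (u : Fin d → ℝ) : co (unit2 i j) 1 u = u j := by
  simp [co, unit2]

lemma ne_zero_of_eval {R : MvPolynomial (Fin 2 × Fin d) ℝ} (M : Fin 2 × Fin d → ℝ)
    (h : eval M R ≠ 0) : R ≠ 0 := by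
  rintro rfl
  simp at h

lemma lin_ne_zero {u : Fin d → ℝ} (hu : u ≠ 0) : lin 0 u ≠ 0 := by
  obtain ⟨i, hi⟩ := Function.ne_iff.1 hu
  refine ne_zero_of_eval (unit2 i i) ?_
  rw [eval_lin, co_unit0]
  exact hi

lemma dot_ne_zero {u m : Fin d → ℝ} (hu : u ≠ 0) (hm : m ≠ 0) :
    lin 0 u * lin 0 m + lin 1 u * lin 1 m ≠ 0 := by
  have h := mul_ne_zero (lin_ne_zero hu) (lin_ne_zero hm)
  have h2 : ∃ M, eval M (lin 0 u * lin 0 m) ≠ 0 := by
    by_contra hc
    push Not at hc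
    exact h (MvPolynomial.funext fun M => by rw [hc M, map_zero])
  obtain ⟨M, hM⟩ := h2
  refine ne_zero_of_eval (fun p => if p.1 = 0 then M p else 0) ?_
  rw [map_mul, eval_lin, eval_lin] at hM
  simp only [map_add, map_mul, eval_lin]
  have e0 : ∀ v : Fin d → ℝ, co (fun p => if p.1 = 0 then M p else 0) 0 v = co M 0 v := by
    intro v; simp [co]
  have e1 : ∀ v : Fin d → ℝ, co (fun p => if p.1 = 0 then M p else 0) 1 v = 0 := by
    intro v; simp [co]
  rw [e0, e0, e1, e1]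
  simpa using hM

/-- the cube -/
noncomputable def cube (d : ℕ) : Finset (Fin d → ℝ) :=
  Fintype.piFinset fun _ => ({0, 1} : Finset ℝ)

lemma mem_cube {a : Fin d → ℝ} (h : a ∈ cube d) (i : Fin d) : a i = 0 ∨ a i = 1 := by
  have := Fintype.mem_piFinset.1 h i
  simpa using this

lemma card_cube (d : ℕ) : (cube d).card = 2 ^ d := by
  rw [cube, Fintype.card_piFinset]
  have : ({0, 1} : Finset ℝ).card = 2 := Finset.card_pair (by norm_num)
  simp [this]

/-- the property wanted for one quadruple -/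
def Good (M : Fin 2 × Fin d → ℝ) (a b x y : Fin d → ℝ) : Prop :=
  a ≠ b → (co M 0 (a - b) ≠ 0 ∧
    (co M 0 (a - b) * co M 1 (x - y) - co M 1 (a - b) * co M 0 (x - y) = 0 →
     co M 0 (a - b) * co M 0 (a + b - x - y) + co M 1 (a - b) * co M 1 (a + b - x - y) = 0 →
      (a = x ∧ b = y) ∨ (a = y ∧ b = x)))

lemma exists_poly {a b x y : Fin d → ℝ} (ha : a ∈ cube d) (hb : b ∈ cube d) (hx : x ∈ cube d)
    (hy : y ∈ cube d) :
    ∃ R : MvPolynomial (Fin 2 × Fin d) ℝ, R ≠ 0 ∧ ∀ M, eval M R ≠ 0 → Good M a b x y := by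
  by_cases hab : a = b
  · exact ⟨1, one_ne_zero, fun M _ h => (h hab).elim⟩
  have hu : a - b ≠ 0 := sub_ne_zero.2 hab
  by_cases hm : a + b - x - y = 0
  · by_cases hxa : x = a
    · refine ⟨lin 0 (a - b), lin_ne_zero hu, fun M hM _ => ⟨by rwa [eval_lin] at hM, ?_⟩⟩
      intro _ _
      left
      refine ⟨hxa.symm, ?_⟩
      subst hxa
      have : b - y = 0 := by rw [← hm]; abel
      exact sub_eq_zero.1 this
    by_cases hxb : x = b
    · refine ⟨lin 0 (a - b), lin_ne_zero hu, fun M hM _ => ⟨by rwa [eval_lin] at hM, ?_⟩⟩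
      intro _ _
      right
      refine ⟨?_, hxb.symm⟩
      subst hxb
      have : a - y = 0 := by rw [← hm]; abel
      exact sub_eq_zero.1 this
    obtain ⟨j, hj⟩ := Function.ne_iff.1 hxa
    obtain ⟨i, hi⟩ := Function.ne_iff.1 hxb
    have hmi := congrFun hm i
    have hmj := congrFun hm j
    simp only [Pi.sub_apply, Pi.add_apply, Pi.zero_apply] at hmi hmj
    have hcross : lin 0 (a - b) * lin 1 (x - y) - lin 1 (a - b) * lin 0 (x - y) ≠ 0 := by
      refine ne_zero_of_eval (unit2 i j) ?_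
      simp only [map_sub, map_mul, eval_lin, co_unit0, co_unit1, Pi.sub_apply]
      rcases mem_cube ha i with h1 | h1 <;> rcases mem_cube hb i with h2 | h2 <;>
        rcases mem_cube hx i with h3 | h3 <;> rcases mem_cube hy i with h4 | h4 <;>
        (try (exfalso; simp only [h1, h2, h3, h4] at hmi hi; revert hmi hi; norm_num; done)) <;>
        rcases mem_cube ha j with h5 | h5 <;> rcases mem_cube hb j with h6 | h6 <;>
        rcases mem_cube hx j with h7 | h7 <;> rcases mem_cube hy j with h8 | h8 <;>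
        (try (exfalso; simp only [h5, h6, h7, h8] at hmj hj; revert hmj hj; norm_num; done)) <;>
        (rw [h1, h2, h3, h4, h5, h6, h7, h8]; norm_num)
    refine ⟨lin 0 (a - b) * (lin 0 (a - b) * lin 1 (x - y) - lin 1 (a - b) * lin 0 (x - y)),
      mul_ne_zero (lin_ne_zero hu) hcross, fun M hM _ => ?_⟩
    simp only [map_sub, map_mul, eval_lin] at hM
    exact ⟨left_ne_zero_of_mul hM, fun h _ => (right_ne_zero_of_mul hM h).elim⟩
  · refine ⟨lin 0 (a - b) * (lin 0 (a - b) * lin 0 (a + b - x - y) +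
      lin 1 (a - b) * lin 1 (a + b - x - y)),
      mul_ne_zero (lin_ne_zero hu) (dot_ne_zero hu hm), fun M hM _ => ?_⟩
    simp only [map_add, map_mul, eval_lin] at hM
    exact ⟨left_ne_zero_of_mul hM, fun _ h => (right_ne_zero_of_mul hM h).elim⟩

lemma exists_matrix (d : ℕ) : ∃ M : Fin 2 × Fin d → ℝ, ∀ a ∈ cube d, ∀ b ∈ cube d,
    ∀ x ∈ cube d, ∀ y ∈ cube d, Good M a b x y := by
  classical
  have h : ∀ q : cube d × cube d × cube d × cube d, ∃ R : MvPolynomial (Fin 2 × Fin d) ℝ,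
      R ≠ 0 ∧ ∀ M, eval M R ≠ 0 → Good M q.1 q.2.1 q.2.2.1 q.2.2.2 :=
    fun q => exists_poly q.1.2 q.2.1.2 q.2.2.1.2 q.2.2.2.2
  choose R hR0 hR using h
  have hp : ∏ q, R q ≠ 0 := Finset.prod_ne_zero_iff.2 fun q _ => hR0 q
  have h2 : ∃ M, eval M (∏ q, R q) ≠ 0 := by
    by_contra hc
    push Not at hc
    exact hp (MvPolynomial.funext fun M => by rw [hc M, map_zero])
  obtain ⟨M, hM⟩ := h2
  rw [map_prod] at hM
  refine ⟨M, fun a ha b hb x hx y hy => ?_⟩
  exact hR (⟨a, ha⟩, ⟨b, hb⟩, ⟨x, hx⟩, ⟨y, hy⟩) M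
    (Finset.prod_ne_zero_iff.1 hM _ (Finset.mem_univ _))

/-- the projection -/
noncomputable def pr (M : Fin 2 × Fin d → ℝ) (u : Fin d → ℝ) : EuclideanSpace ℝ (Fin 2) :=
  !₂[co M 0 u, co M 1 u]

lemma dist_pr (M : Fin 2 × Fin d → ℝ) (a b : Fin d → ℝ) :
    dist (pr M a) (pr M b) = Real.sqrt (co M 0 (a - b) ^ 2 + co M 1 (a - b) ^ 2) := by
  rw [EuclideanSpace.dist_eq, Fin.sum_univ_two]
  simp [pr, co_sub, Real.dist_eq, sq_abs]

lemma mem_bis (p q z : EuclideanSpace ℝ (Fin 2)) :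
    z ∈ AffineSubspace.perpBisector p q ↔
      (z 0 - p 0) ^ 2 + (z 1 - p 1) ^ 2 = (z 0 - q 0) ^ 2 + (z 1 - q 1) ^ 2 := by
  rw [AffineSubspace.mem_perpBisector_iff_dist_eq, EuclideanSpace.dist_eq, EuclideanSpace.dist_eq,
    Fin.sum_univ_two, Fin.sum_univ_two, Real.sqrt_inj (by positivity) (by positivity)]
  simp [Real.dist_eq, sq_abs]

lemma bis_eq {p q r s : EuclideanSpace ℝ (Fin 2)}
    (h : AffineSubspace.perpBisector p q = AffineSubspace.perpBisector r s) :
    (p 0 - q 0) * (r 1 - s 1) - (p 1 - q 1) * (r 0 - s 0) = 0 ∧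
      (p 0 - q 0) * (p 0 + q 0 - r 0 - s 0) + (p 1 - q 1) * (p 1 + q 1 - r 1 - s 1) = 0 := by
  have h1 : (!₂[(r 0 + s 0) / 2, (r 1 + s 1) / 2] : EuclideanSpace ℝ (Fin 2)) ∈
      AffineSubspace.perpBisector r s := by
    rw [mem_bis]; simp; ring
  have h2 : (!₂[(r 0 + s 0) / 2 + (r 1 - s 1), (r 1 + s 1) / 2 - (r 0 - s 0)] :
      EuclideanSpace ℝ (Fin 2)) ∈ AffineSubspace.perpBisector r s := by
    rw [mem_bis]; simp; ring
  rw [← h, mem_bis] at h1 h2
  simp at h1 h2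
  constructor <;> nlinarith

theorem exists_set (d : ℕ) : ∃ P : Finset (EuclideanSpace ℝ (Fin 2)), P.card = 2 ^ d ∧
    (∀ a ∈ P, ∀ b ∈ P, ∀ x ∈ P, ∀ y ∈ P, a ≠ b → x ≠ y →
      AffineSubspace.perpBisector a b = AffineSubspace.perpBisector x y →
        (a = x ∧ b = y) ∨ (a = y ∧ b = x)) ∧
    ∀ T : Finset ℝ, (∀ t ∈ T, ∃ a ∈ P, ∃ b ∈ P, t = dist a b) → T.card ≤ 3 ^ d := by
  classical
  obtain ⟨M, hM⟩ := exists_matrix d
  refine ⟨(cube d).image (pr M), ?_, ?_, ?_⟩
  · rw [Finset.card_image_of_injOn, card_cube]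
    intro a ha b hb hab
    by_contra hne
    have h1 := (hM a ha b hb a ha b hb hne).1
    apply h1
    have := congrArg (fun z : EuclideanSpace ℝ (Fin 2) => z 0) hab
    simp only [pr] at this
    rw [co_sub]
    simpa [sub_eq_zero] using this
  · intro a' ha' b' hb' x' hx' y' hy' hab _ h
    obtain ⟨a, ha, rfl⟩ := Finset.mem_image.1 ha'
    obtain ⟨b, hb, rfl⟩ := Finset.mem_image.1 hb'
    obtain ⟨x, hx, rfl⟩ := Finset.mem_image.1 hx'
    obtain ⟨y, hy, rfl⟩ := Finset.mem_image.1 hy'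
    have hne : a ≠ b := fun e => hab (by rw [e])
    obtain ⟨h1, h2⟩ := bis_eq h
    simp only [pr] at h1 h2
    have := (hM a ha b hb x hx y hy hne).2 (by simpa [co_sub] using h1)
      (by simpa [co_sub, co_add] using h2)
    rcases this with ⟨rfl, rfl⟩ | ⟨rfl, rfl⟩
    · exact Or.inl ⟨rfl, rfl⟩
    · exact Or.inr ⟨rfl, rfl⟩
  · intro T hT
    have hsub : T ⊆ (Fintype.piFinset fun _ : Fin d => ({-1, 0, 1} : Finset ℝ)).image
        (fun u => Real.sqrt (co M 0 u ^ 2 + co M 1 u ^ 2)) := by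
      intro t ht
      obtain ⟨a', ha', b', hb', rfl⟩ := hT t ht
      obtain ⟨a, ha, rfl⟩ := Finset.mem_image.1 ha'
      obtain ⟨b, hb, rfl⟩ := Finset.mem_image.1 hb'
      refine Finset.mem_image.2 ⟨a - b, ?_, (dist_pr M a b).symm⟩
      refine Fintype.mem_piFinset.2 fun i => ?_
      rcases mem_cube ha i with h1 | h1 <;> rcases mem_cube hb i with h2 | h2 <;>
        simp [h1, h2]
    refine (Finset.card_le_card hsub).trans (Finset.card_image_le.trans ?_)
    rw [Fintype.card_piFinset]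
    have : ({-1, 0, 1} : Finset ℝ).card ≤ 3 := Finset.card_le_three
    calc ∏ _i : Fin d, ({-1, 0, 1} : Finset ℝ).card ≤ ∏ _i : Fin d, 3 :=
          Finset.prod_le_prod' fun _ _ => this
      _ = 3 ^ d := by simp

end Pool.Agent.H775Z.Bis
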